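import Pool.Agent.Q198.Heintze.Proof

/-!
# Optimal curvature pinching of Heintze groups of Carnot type
-/

set_option autoImplicit false

namespace Pool.Agent.Results.MP_1a0a4b_gt.ExactPinching

open Q198.Heintze

/-- **Theorem.** Let `G` be a Heintze group of Carnot type (no lattice is required in `[G, G]`),
`s` the step of `[G, G]`, and let `B` be a left-invariant Riemannian metric on `G` all of whose
sectional curvatures lie in `[a, b]`, `a ≤ b < 0`. Then `b / a ≤ 1 / s ^ 2`. -/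
theorem result (𝔤 : Type*) [LieRing 𝔤] [LieAlgebra ℝ 𝔤] [FiniteDimensional ℝ 𝔤] (s : ℕ)
    (V : ℕ → Submodule ℝ 𝔤) (A : 𝔤) (hG : IsHeintzeCarnot 𝔤 s V A)
    (B : 𝔤 →ₗ[ℝ] 𝔤 →ₗ[ℝ] ℝ) (hB : IsInnerProduct B)
    (D : 𝔤 →ₗ[ℝ] 𝔤 →ₗ[ℝ] 𝔤) (hD : IsLeviCivita B D)
    (a b : ℝ) (hab : a ≤ b) (hb : b < 0)
    (hsec : ∀ x y : 𝔤, LinearIndependent ℝ ![x, y] → a ≤ sec B D x y ∧ sec B D x y ≤ b) :
    b / a ≤ 1 / (s : ℝ) ^ 2 :=
  main 𝔤 s V A hG B hB D hD a b hab hb hsec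

end Pool.Agent.Results.MP_1a0a4b_gt.ExactPinching
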